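import Pool.Agent.P.MP_6277db_ag.KEW.L2g.Core
import Pool.Agent.P.MP_6277db_ag.KEW.L1.Rep

/-!
KEW, layer L2g: comparison of the restricted representable presheaves with sums over maps.
-/

set_option backward.isDefEq.respectTransparency false

noncomputable section

open CategoryTheory Limits AlgebraicGeometry Opposite

namespace Pool.Agent.KEW

variable {D : Type 1} [Category.{0} D] {C' : Type 1} [Category.{0} C'] {L : Type 1} [CommRing L]

lemma Cmp_rep_lin_ext {V Y : C'} {N : Type 1} [AddCommGroup N] [Module L N]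
    {f f' : ((rep C' L).obj Y).obj (op V) →ₗ[L] N} (h : ∀ β : V ⟶ Y, f (repEl L β) = f' (repEl L β)) :
    f = f' :=
  Finsupp.lhom_ext' (φ := f) (ψ := f') fun β => LinearMap.ext_ring (h β.down)

/-- Linear maps out of the sections of a representable presheaf. -/
def repLift {V Y : C'} {N : Type 1} [AddCommGroup N] [Module L N] (e : (V ⟶ Y) → N) :
    ((rep C' L).obj Y).obj (op V) →ₗ[L] N :=
  Finsupp.linearCombination L fun β : ULift.{1} (V ⟶ Y) => e β.down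

lemma repLift_el {V Y : C'} {N : Type 1} [AddCommGroup N] [Module L N] (e : (V ⟶ Y) → N)
    (β : V ⟶ Y) : repLift (L := L) e (repEl L β) = e β :=
  (Finsupp.linearCombination_single L 1 _).trans (one_smul _ _)

/-- Maps out of a restricted representable presheaf. -/
def repDesc (φ : D ⥤ C') (Y : C') {M : PSh D L} (e : ∀ p, (φ.obj p ⟶ Y) → M.obj (op p))
    (nat : ∀ {p q : D} (f : q ⟶ p) (β : φ.obj p ⟶ Y),
      (M.map f.op).hom (e p β) = e q (φ.map f ≫ β)) : (pb L φ).obj ((rep C' L).obj Y) ⟶ M where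
  app p := ModuleCat.ofHom (repLift (e p.unop))
  naturality {p q} f := ModuleCat.hom_ext (Cmp_rep_lin_ext fun β => by
    have h1 := map_repEl (L := L) β (φ.map f.unop)
    exact (congrArg (repLift (e q.unop)) h1).trans ((repLift_el _ _).trans
      ((nat f.unop β).symm.trans (congrArg (M.map f).hom (repLift_el _ _).symm))))

lemma repDesc_el (φ : D ⥤ C') (Y : C') {M : PSh D L} (e : ∀ p, (φ.obj p ⟶ Y) → M.obj (op p))
    (nat : ∀ {p q : D} (f : q ⟶ p) (β : φ.obj p ⟶ Y),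
      (M.map f.op).hom (e p β) = e q (φ.map f ≫ β)) (p : D) (β : φ.obj p ⟶ Y) :
    ((repDesc φ Y e nat).app (op p)).hom (repEl L β) = e p β := repLift_el (e p) β

variable (L) in
/-- The constant presheaf. -/
abbrev cst (D : Type 1) [Category.{0} D] : PSh D L := (Functor.const _).obj (ModuleCat.of L L)

lemma bij_of_lin {M N : Type 1} [AddCommGroup M] [Module L M] [AddCommGroup N] [Module L N]
    (f : M →ₗ[L] N) (g : N →ₗ[L] M) (h : g ∘ₗ f = LinearMap.id) (h' : f ∘ₗ g = LinearMap.id) :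
    Function.Bijective f :=
  Function.bijective_iff_has_inverse.2 ⟨g, LinearMap.congr_fun h, LinearMap.congr_fun h'⟩

variable {A : Type} [CommRing A] {s Z : D ⥤ Big A} (ι : Z ⟶ s) (Y : Big A) (m : (SP.yon Z Y).Sub)

variable (L) in
/-- The generators of the sum over the maps from the closed subschemes. -/
def gE₂ (p : D) (β : Z.obj p ⟶ Y) : L →ₗ[L] ((sm .top m L).obj (cst L _)).obj (op p) :=
  smI .top m (cst L _) ⟨p, β⟩

variable (L) in
/-- The generators of the sum over the maps from the ambient schemes. -/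
def gE₁ (p : D) (β : Z.obj p ⟶ Y) (α : (gT ι Y).obj ⟨p, β⟩) :
    L →ₗ[L] ((sm .top m L).obj ((RT L (gT ι Y)).obj (cst L _))).obj (op p) :=
  smI .top m ((RT L (gT ι Y)).obj (cst L _)) ⟨p, β⟩ ∘ₗ rI (gT ι Y) (cst L _) ⟨p, β⟩ α

lemma gE₂_nat {p q : D} (f : q ⟶ p) (β : Z.obj p ⟶ Y) :
    (((sm .top m L).obj (cst L _)).map f.op).hom (gE₂ L Y m p β 1) = gE₂ L Y m q (Z.map f ≫ β) 1 :=
  smObj_map_I' (a := .top) (b := m) (cst L _) f (x := β) trivial (1 : L)

lemma gE₁_nat {p q : D} (f : q ⟶ p) (α : s.obj p ⟶ Y) :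
    (((sm .top m L).obj ((RT L (gT ι Y)).obj (cst L _))).map f.op).hom
      (gE₁ L ι Y m p (ι.app p ≫ α) ⟨α, rfl⟩ 1) =
      gE₁ L ι Y m q (ι.app q ≫ s.map f ≫ α) ⟨s.map f ≫ α, rfl⟩ 1 := by
  let f' : (⟨q, ι.app q ≫ s.map f ≫ α⟩ : El (SP.yon Z Y)) ⟶ ⟨p, ι.app p ≫ α⟩ :=
    ⟨f, ι.naturality_assoc f α⟩
  have h1 := smObj_map_I (a := .top) (b := m) ((RT L (gT ι Y)).obj (cst L _)) f' trivial
    (rI (gT ι Y) (cst L _) ⟨p, ι.app p ≫ α⟩ ⟨α, rfl⟩ (1 : L))
  rw [rI_res] at h1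
  exact h1

variable (L) in
/-- The comparison map for the closed subschemes. -/
def gK₂ : (pb L Z).obj ((rep (Big A) L).obj Y) ⟶ (sm .top m L).obj (cst L _) :=
  repDesc Z Y (fun p β => gE₂ L Y m p β 1) (gE₂_nat Y m)

variable (L) in
/-- The comparison map for the ambient schemes. -/
def gK₁ : (pb L s).obj ((rep (Big A) L).obj Y) ⟶
    (sm .top m L).obj ((RT L (gT ι Y)).obj (cst L _)) :=
  repDesc s Y (fun p α => gE₁ L ι Y m p (ι.app p ≫ α) ⟨α, rfl⟩ 1) (gE₁_nat ι Y m)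

lemma gK₂_el (p : D) (β : Z.obj p ⟶ Y) :
    ((gK₂ L Y m).app (op p)).hom (repEl L β) = gE₂ L Y m p β 1 :=
  repDesc_el Z Y (fun p β => gE₂ L Y m p β 1) (gE₂_nat Y m) p β

lemma gK₁_el (p : D) (α : s.obj p ⟶ Y) :
    ((gK₁ L ι Y m).app (op p)).hom (repEl L α) = gE₁ L ι Y m p (ι.app p ≫ α) ⟨α, rfl⟩ 1 :=
  repDesc_el s Y (fun p α => gE₁ L ι Y m p (ι.app p ≫ α) ⟨α, rfl⟩ 1) (gE₁_nat ι Y m) p α

lemma gK_sq : (pbT L ι).app ((rep (Big A) L).obj Y) ≫ gK₂ L Y m =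
    gK₁ L ι Y m ≫ (sm .top m L).map (rEps (gT ι Y) (cst L _)) := by
  ext ⟨p⟩ : 2
  refine ModuleCat.hom_ext (Cmp_rep_lin_ext fun α => ?_)
  have h1 := map_repEl (L := L) α (ι.app p)
  have h2 := sm_map_I (a := .top) (b := m) (rEps (gT ι Y) (cst L _)) ⟨p, ι.app p ≫ α⟩
    (rI (gT ι Y) (cst L _) ⟨p, ι.app p ≫ α⟩ ⟨α, rfl⟩ (1 : L))
  rw [rEps_rI] at h2
  exact (congrArg ((gK₂ L Y m).app (op p)).hom h1).trans ((gK₂_el Y m p _).trans (h2.symm.trans
    (congrArg (((sm .top m L).map (rEps (gT ι Y) (cst L _))).app (op p)).hom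
      (gK₁_el ι Y m p α).symm)))

lemma gK₂_bij (p : D) (hp : ∀ β : Z.obj p ⟶ Y, ¬ m.mem β) :
    Function.Bijective ((gK₂ L Y m).app (op p)).hom := by
  let φ : (Z.obj p ⟶ Y) → L →ₗ[L] ((rep (Big A) L).obj Y).obj (op (Z.obj p)) := fun β =>
    LinearMap.toSpanSingleton L _ (repEl L β)
  let g : SmMod .top m (cst L _) p →ₗ[L] ((rep (Big A) L).obj Y).obj (op (Z.obj p)) :=
    smLift .top m fun β _ => φ β
  have hg : ∀ (β : Z.obj p ⟶ Y) (l : L), g (gE₂ L Y m p β l) = l • repEl L β :=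
    fun β l => smLift_I (a := .top) (b := m) (G := cst L _) (fun β _ => φ β) trivial l
      fun h => (hp β h).elim
  refine bij_of_lin _ g (Cmp_rep_lin_ext fun β => ?_) (sm_lin_ext fun β l _ _ => ?_)
  · exact (congrArg g (gK₂_el Y m p β)).trans ((hg β 1).trans (one_smul _ _))
  · refine (congrArg ((gK₂ L Y m).app (op p)).hom (hg β l)).trans ((map_smul _ _ _).trans ?_)
    rw [gK₂_el, ← map_smul, smul_eq_mul, mul_one]
    rfl

lemma gK₁_bij (p : D) (hp : ∀ β : Z.obj p ⟶ Y, ¬ m.mem β) :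
    Function.Bijective ((gK₁ L ι Y m).app (op p)).hom := by
  let χ : (s.obj p ⟶ Y) → L →ₗ[L] ((rep (Big A) L).obj Y).obj (op (s.obj p)) := fun α =>
    LinearMap.toSpanSingleton L _ (repEl L α)
  let φ : ∀ β : Z.obj p ⟶ Y, ((RT L (gT ι Y)).obj (cst L _)).obj (op ⟨p, β⟩) →ₗ[L]
      ((rep (Big A) L).obj Y).obj (op (s.obj p)) := fun β => rLift fun α => χ α.1
  let g : SmMod .top m ((RT L (gT ι Y)).obj (cst L _)) p →ₗ[L]
      ((rep (Big A) L).obj Y).obj (op (s.obj p)) := smLift .top m fun β _ => φ β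
  have hg : ∀ (β : Z.obj p ⟶ Y) (α : (gT ι Y).obj ⟨p, β⟩) (l : L),
      g (gE₁ L ι Y m p β α l) = l • repEl L α.1 := fun β α l => by
    have h1 := smLift_I (a := .top) (b := m) (G := (RT L (gT ι Y)).obj (cst L _)) (fun β _ => φ β)
      (x := β) trivial (rI (gT ι Y) (cst L _) ⟨p, β⟩ α l) fun h => (hp β h).elim
    have h2 := rLift_rI (T := gT ι Y) (G := cst L _) (p := ⟨p, β⟩) (fun α => χ α.1) α l
    exact h1.trans h2
  have key : ∀ (α : s.obj p ⟶ Y) (β : Z.obj p ⟶ Y) (h : ι.app p ≫ α = β) (l : L),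
      ((gK₁ L ι Y m).app (op p)).hom (g (gE₁ L ι Y m p β ⟨α, h⟩ l)) = gE₁ L ι Y m p β ⟨α, h⟩ l := by
    rintro α _ rfl l
    refine (congrArg ((gK₁ L ι Y m).app (op p)).hom (hg (ι.app p ≫ α) ⟨α, rfl⟩ l)).trans
      ((map_smul _ _ _).trans ?_)
    rw [gK₁_el, ← map_smul, smul_eq_mul, mul_one]
  refine bij_of_lin _ g (Cmp_rep_lin_ext fun α => ?_) (sm_lin_ext fun β n _ _ => ?_)
  · exact (congrArg g (gK₁_el ι Y m p α)).trans
      ((hg (ι.app p ≫ α) ⟨α, rfl⟩ 1).trans (one_smul _ _))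
  · exact LinearMap.congr_fun (RT_lin_ext
      (f := (((gK₁ L ι Y m).app (op p)).hom ∘ₗ g) ∘ₗ smI .top m _ ⟨p, β⟩)
      (f' := smI .top m _ ⟨p, β⟩) fun α l => key α.1 β α.2 l) n

end Pool.Agent.KEW
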