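import Pool.Agent.P.MP_6277db_ag.KEW.L2a.Geom
import Pool.Agent.P.MP_6277db_ag.KEW.CA.Pres

/-!
KEW, layer L2g: etale neighbourhoods of closed subschemes, on the level of schemes.
-/

set_option backward.isDefEq.respectTransparency false

noncomputable section

open CategoryTheory Limits AlgebraicGeometry Opposite

namespace Pool.Agent.KEW

lemma GG_res {Q V W : Scheme.{0}} (j : Q ⟶ V) (f : V ⟶ W) {m : Q ⟶ W} (h : j ≫ f = m) (q : Q)
    (hres : IsIso (m.residueFieldMap q)) : IsIso (f.residueFieldMap (j q)) := by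
  obtain ⟨s, hs, hq⟩ := Geom_sec_of_res m rfl hres
  have h1 := (Geom_res_of_sec f (m q) (s ≫ j) (by rw [Category.assoc, h, hs]) default).2
  rwa [Scheme.Hom.comp_apply, hq] at h1

lemma GG_res_closed {Z W : Scheme.{0}} (i : Z ⟶ W) [IsClosedImmersion i] (z : Z) :
    IsIso (i.residueFieldMap z) := by
  rw [ConcreteCategory.isIso_iff_bijective]
  refine ⟨(i.residueFieldMap z).hom.injective, fun y => ?_⟩
  obtain ⟨y, rfl⟩ := Z.residue_surjective z y
  obtain ⟨y, rfl⟩ := i.stalkMap_surjective z y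
  exact ⟨W.residue (i z) y, congrArg (fun k => k.hom y) (Scheme.residue_residueFieldMap i z)⟩

/-- The locus where two lifts along an etale map agree is open. -/
lemma GG_eq {S Y W : Scheme.{0}} (Φ : Y ⟶ S) [Etale Φ] {a b : W ⟶ Y} (h : a ≫ Φ = b ≫ Φ) :
    ∃ O : W.Opens, ∀ (Q : Scheme.{0}) (q : Q ⟶ W), q ≫ a = q ≫ b ↔ Set.range q ⊆ O := by
  refine ⟨pullback.lift a b h ⁻¹ᵁ (pullback.diagonal Φ).opensRange, fun Q q => ⟨fun e => ?_, fun e => ?_⟩⟩
  · rintro _ ⟨t, rfl⟩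
    have h3 : q ≫ pullback.lift a b h = (q ≫ a) ≫ pullback.diagonal Φ := by
      refine pullback.hom_ext ?_ ?_
      · simp
      · simp [e]
    refine ⟨(q ≫ a) t, ?_⟩
    rw [← Scheme.Hom.comp_apply, ← h3, Scheme.Hom.comp_apply]
  · refine Geom_of_diag Φ (by rw [Category.assoc, Category.assoc, h]) ?_
    have h4 : pullback.lift (q ≫ a) (q ≫ b) (by rw [Category.assoc, Category.assoc, h]) =
        q ≫ pullback.lift a b h := by
      refine pullback.hom_ext ?_ ?_ <;> simp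
    rw [h4]
    rintro _ ⟨t, rfl⟩
    rw [Scheme.Hom.comp_apply]
    exact e ⟨t, rfl⟩

lemma GG_affine {W : Scheme.{0}} {O : W.Opens} {w : W} (hw : w ∈ O) :
    ∃ U : W.Opens, IsAffineOpen U ∧ w ∈ U ∧ U ≤ O := by
  obtain ⟨_, ⟨U, hU, rfl⟩, hwU, hUO⟩ :=
    W.isBasis_affineOpens.exists_subset_of_mem_open hw O.isOpen
  exact ⟨U, hU, hwU, hUO⟩

/-- An etale neighbourhood in a closed subscheme comes from an etale neighbourhood in the ambient
scheme. -/
lemma GG_lift {Z W V₀ : Scheme.{0}} (i : Z ⟶ W) [IsClosedImmersion i] (g : V₀ ⟶ Z) [Etale g]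
    (y : V₀) (hres : IsIso (g.residueFieldMap y)) :
    ∃ (V : Scheme.{0}) (f : V ⟶ W) (v : V), Etale f ∧ f v = i (g y) ∧
      IsIso (f.residueFieldMap v) ∧ ∀ (Q : Scheme.{0}) (q₁ : Q ⟶ Z) (q₂ : Q ⟶ V),
        q₁ ≫ i = q₂ ≫ f → ∃ k : Q ⟶ V₀, k ≫ g = q₁ := by
  obtain ⟨U, hU, hwU, -⟩ := GG_affine (O := ⊤) (w := i (g y)) trivial
  have hZ : IsAffineOpen (i ⁻¹ᵁ U) := hU.preimage i
  obtain ⟨V₁, hV₁, hy, hle⟩ := GG_affine (O := g ⁻¹ᵁ i ⁻¹ᵁ U) (w := y) hwU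
  have hp : Function.Surjective (i.app U).hom := i.app_surjective U hU
  have hε : (g.appLE (i ⁻¹ᵁ U) V₁ hle).hom.Etale := g.etale_appLE hZ hV₁ hle
  obtain ⟨E, _, ε, q, h1, h2⟩ := _root_.KEW.etale_lift_surj hp hε
  have P1 : IsPullback (Spec.map (CommRingCat.ofHom q)) (Spec.map (g.appLE (i ⁻¹ᵁ U) V₁ hle))
      (Spec.map (CommRingCat.ofHom ε)) (Spec.map (i.app U)) :=
    isPullback_SpecMap_of_isPushout _ _ _ _ h2
  have P2 : IsPullback (Spec.map (i.app U)) hZ.fromSpec hU.fromSpec i := by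
    refine IsOpenImmersion.isPullback _ _ _ _ ?_ ?_
    · rw [Scheme.Hom.app_eq_appLE]
      exact (IsAffineOpen.SpecMap_appLE_fromSpec i hU hZ le_rfl).symm
    · rw [IsAffineOpen.opensRange_fromSpec, IsAffineOpen.opensRange_fromSpec]
  have P := P1.paste_vert P2
  have e1 : Spec.map (g.appLE (i ⁻¹ᵁ U) V₁ hle) ≫ hZ.fromSpec = hV₁.fromSpec ≫ g :=
    IsAffineOpen.SpecMap_appLE_fromSpec g hZ hV₁ hle
  rw [e1] at P
  obtain ⟨y₁, rfl⟩ : y ∈ Set.range hV₁.fromSpec := by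
    rw [IsAffineOpen.range_fromSpec]
    exact hy
  have : Etale (Spec.map (CommRingCat.ofHom ε)) := HasRingHomProperty.Spec_iff.2 h1
  refine ⟨_, Spec.map (CommRingCat.ofHom ε) ≫ hU.fromSpec, Spec.map (CommRingCat.ofHom q) y₁,
    inferInstance, ?_, GG_res _ _ P.w y₁ ?_, fun Q q₁ q₂ h => ⟨P.lift q₂ q₁ h.symm ≫ hV₁.fromSpec, ?_⟩⟩
  · rw [← Scheme.Hom.comp_apply, P.w, Scheme.Hom.comp_apply, Scheme.Hom.comp_apply]
    rfl
  · have := GG_res_closed i ((hV₁.fromSpec ≫ g) y₁)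
    rw [Scheme.residueFieldMap_comp, Scheme.residueFieldMap_comp]
    infer_instance
  · rw [Category.assoc, P.lift_snd]

/-- Functions on a closed subscheme extend locally. -/
lemma GG_fun {Z W : Scheme.{0}} (i : Z ⟶ W) [IsClosedImmersion i] (w : W) {ι : Type}
    (φ : ι → Γ(Z, ⊤)) : ∃ (U : W.Opens) (f : ι → Γ(U, ⊤)), w ∈ U ∧
      ∀ (Q : Scheme.{0}) (q₁ : Q ⟶ Z) (q₂ : Q ⟶ U), q₁ ≫ i = q₂ ≫ U.ι →
        ∀ k, q₂.appTop (f k) = q₁.appTop (φ k) := by
  obtain ⟨U, hU, hwU, -⟩ := GG_affine (O := ⊤) (w := w) trivial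
  have : IsAffine U := hU
  have hs : Function.Surjective (i ∣_ U).appTop :=
    (IsClosedImmersion.isAffine_surjective_of_isAffine (i ∣_ U)).2
  choose f hf using fun k => hs ((i ⁻¹ᵁ U).ι.appTop (φ k))
  refine ⟨U, f, hwU, fun Q q₁ q₂ h k => ?_⟩
  have P := isPullback_morphismRestrict i U
  conv_lhs => rw [← P.lift_fst q₂ q₁ h.symm]
  conv_rhs => rw [← P.lift_snd q₂ q₁ h.symm]
  rw [Scheme.Hom.comp_appTop, Scheme.Hom.comp_appTop, CommRingCat.comp_apply,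
    CommRingCat.comp_apply, hf]

/-- A lift along an etale map given on a closed subscheme extends to an etale neighbourhood. -/
lemma GG_sec {Z W Y S : Scheme.{0}} (i : Z ⟶ W) [IsClosedImmersion i] (Φ : Y ⟶ S) [Etale Φ]
    (F : W ⟶ S) (β : Z ⟶ Y) (h : i ≫ F = β ≫ Φ) (z : Z) :
    ∃ (V : Scheme.{0}) (f : V ⟶ W) (v : V) (α : V ⟶ Y), Etale f ∧ f v = i z ∧
      IsIso (f.residueFieldMap v) ∧ α ≫ Φ = f ≫ F ∧
      ∀ (Q : Scheme.{0}) (q₁ : Q ⟶ Z) (q₂ : Q ⟶ V), q₁ ≫ i = q₂ ≫ f → q₂ ≫ α = q₁ ≫ β := by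
  let σ : Z ⟶ pullback F Φ := pullback.lift i β h
  have hσ : σ ≫ pullback.fst F Φ = i := pullback.lift_fst _ _ _
  have hσ' : σ ≫ pullback.snd F Φ = β := pullback.lift_snd _ _ _
  let c := pullback.fst (pullback.fst F Φ) i
  let r := pullback.snd (pullback.fst F Φ) i
  have hcr : c ≫ pullback.fst F Φ = r ≫ i := pullback.condition
  obtain ⟨O, hO⟩ := GG_eq Φ (a := c ≫ pullback.snd F Φ) (b := r ≫ β) (by
    rw [Category.assoc, ← pullback.condition, ← Category.assoc, hcr, Category.assoc, h,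
      Category.assoc])
  obtain ⟨O', hO', hOO⟩ := c.isClosedEmbedding.isInducing.isOpen_iff.1 O.isOpen
  let σ' : Z ⟶ pullback (pullback.fst F Φ) i := pullback.lift σ (𝟙 Z) (by rw [hσ, Category.id_comp])
  have h1 : σ' ≫ c = σ := pullback.lift_fst _ _ _
  have h2 : σ' ≫ r = 𝟙 Z := pullback.lift_snd _ _ _
  have h3 : Set.range σ' ⊆ O := (hO _ σ').1 (by
    rw [← Category.assoc, h1, hσ', ← Category.assoc, h2, Category.id_comp])
  let O₁ : (pullback F Φ : Scheme).Opens := ⟨O', hO'⟩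
  have h4 : Set.range σ ⊆ Set.range O₁.ι := by
    rw [Scheme.Opens.range_ι]
    rintro _ ⟨t, rfl⟩
    have h5 := h3 ⟨t, rfl⟩
    rw [← hOO] at h5
    rw [← h1, Scheme.Hom.comp_apply]
    exact h5
  have h5 : IsOpenImmersion.lift O₁.ι σ h4 ≫ O₁.ι ≫ pullback.fst F Φ = i := by
    rw [IsOpenImmersion.lift_fac_assoc, hσ]
  refine ⟨O₁, O₁.ι ≫ pullback.fst F Φ, IsOpenImmersion.lift O₁.ι σ h4 z, O₁.ι ≫ pullback.snd F Φ,
    inferInstance, ?_, GG_res _ _ h5 z (GG_res_closed i z), ?_, fun Q q₁ q₂ e => ?_⟩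
  · rw [← Scheme.Hom.comp_apply, h5]
  · rw [Category.assoc, ← pullback.condition, Category.assoc]
  · let l : Q ⟶ pullback (pullback.fst F Φ) i :=
      pullback.lift (q₂ ≫ O₁.ι) q₁ (by rw [Category.assoc, e])
    have l1 : l ≫ c = q₂ ≫ O₁.ι := pullback.lift_fst _ _ _
    have l2 : l ≫ r = q₁ := pullback.lift_snd _ _ _
    have l3 := (hO _ l).2 (by
      rw [← hOO]
      rintro _ ⟨t, rfl⟩
      change c (l t) ∈ O'
      rw [← Scheme.Hom.comp_apply, l1, Scheme.Hom.comp_apply]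
      exact (q₂ t).2)
    rwa [← Category.assoc, l1, ← Category.assoc, l2, Category.assoc] at l3

/-- An etale chart of a scheme over `S`. -/
structure GlChart {Y S : Scheme.{0}} (p : Y ⟶ S) : Type 1 where
  /-- the domain -/
  U : Scheme.{0}
  /-- the open immersion -/
  j : U ⟶ Y
  /-- the dimension -/
  n : ℕ
  /-- the coordinates -/
  Φ : U ⟶ 𝔸(Fin n; S)
  open_j : IsOpenImmersion j
  etale_Φ : Etale Φ
  w : Φ ≫ 𝔸(Fin n; S) ↘ S = j ≫ p

attribute [instance] GlChart.open_j GlChart.etale_Φ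

lemma GG_chart {Y S : Scheme.{0}} (p : Y ⟶ S) [Smooth p] (y : Y) :
    ∃ c : GlChart p, y ∈ Set.range c.j := by
  obtain ⟨U, hU, V, hV, hy, e, h⟩ := Smooth.exists_isStandardSmooth p y
  obtain ⟨n, g, hg, hg'⟩ := h.exists_etale_mvPolynomial
  have : Etale (Spec.map (CommRingCat.ofHom g)) := HasRingHomProperty.Spec_iff.2 hg'
  have : IsOpenImmersion (AffineSpace.map (Fin n) hU.fromSpec) :=
    MorphismProperty.of_isPullback (AffineSpace.isPullback_map hU.fromSpec).flip inferInstance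
  refine ⟨⟨_, hV.fromSpec, n, Spec.map (CommRingCat.ofHom g) ≫
    (AffineSpace.SpecIso (Fin n) Γ(S, U)).inv ≫ AffineSpace.map (Fin n) hU.fromSpec,
    inferInstance, inferInstance, ?_⟩, ?_⟩
  · rw [Category.assoc, Category.assoc, AffineSpace.map_over, AffineSpace.SpecIso_inv_over_assoc,
      ← Category.assoc, ← Spec.map_comp, ← IsAffineOpen.SpecMap_appLE_fromSpec p hU hV e]
    congr 2
    exact CommRingCat.hom_ext hg
  · change y ∈ Set.range hV.fromSpec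
    rw [IsAffineOpen.range_fromSpec]
    exact hy

lemma GG_charts {Y S : Scheme.{0}} (p : Y ⟶ S) [Smooth p] [CompactSpace Y] :
    ∃ (c : Y → GlChart p) (s : Finset Y), ∀ y : Y, ∃ i ∈ s, y ∈ Set.range (c i).j := by
  choose c hc using GG_chart p
  obtain ⟨s, hs⟩ := isCompact_univ.elim_finite_subcover (fun i => Set.range (c i).j)
    (fun i => (c i).j.isOpenEmbedding.isOpen_range) fun y _ => Set.mem_iUnion.2 ⟨y, hc y⟩
  refine ⟨c, s, fun y => ?_⟩
  simpa using hs (Set.mem_univ y)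

end Pool.Agent.KEW
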