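import Pool.Agent.P.MP_6277db_ag.KEW.L2g.Tors
import Pool.Agent.P.MP_6277db_ag.KEW.L2g.Geo

/-!
KEW, layer L2g: the extensions of a map from a closed subscheme to a smooth scheme form a locally
contractible family.
-/

set_option backward.isDefEq.respectTransparency false

noncomputable section

open CategoryTheory Limits AlgebraicGeometry Opposite

namespace Pool.Agent.KEW

variable {D : Type 1} [Category.{0} D] {L : Type 1} [CommRing L] {A : Type} [CommRing A]
  {s Z : D ⥤ Big A} (ι : Z ⟶ s) (Y : Big A)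

/-- The underlying maps of schemes. -/
abbrev gfs (p : D) : (big A).obj (Z.obj p) ⟶ (s ⋙ big A).obj p := (big A).map (ι.app p)

lemma gfs_nat {p q : D} (f : q ⟶ p) :
    (big A).map (Z.map f) ≫ gfs ι p = gfs ι q ≫ (s ⋙ big A).map f := by
  rw [← Functor.map_comp, ι.naturality, Functor.map_comp]
  rfl

lemma gfs_w (p : D) : gfs ι p ≫ (s.obj p).obj.hom = (Z.obj p).obj.hom := Big.w _

lemma gel_map {p q : El (SP.yon Z Y)} (f : q ⟶ p) :
    (big A).map (Z.map f.1) ≫ (big A).map p.x = (big A).map q.x := by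
  rw [← Functor.map_comp]
  exact congrArg _ f.2

/-- The extensions of a map to the ambient scheme. -/
def gT : SP (El (SP.yon Z Y)) where
  obj p := {α : s.obj p.W ⟶ Y // ι.app p.W ≫ α = p.x}
  res f α := ⟨s.map f.1 ≫ α.1, by
    rw [← Category.assoc, ← ι.naturality, Category.assoc, α.2]
    exact f.2⟩
  res_id _ α := Subtype.ext (by simp)
  res_comp f g α := Subtype.ext (by simp)

variable {Y} (c : GlChart Y.obj.hom)

/-- The extensions with values in a chart. -/
def gTc : SP (El (SP.yon Z Y)) where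
  obj p := {α : (s ⋙ big A).obj p.W ⟶ c.U // gfs ι p.W ≫ α ≫ c.j = (big A).map p.x ∧
    α ≫ c.j ≫ Y.obj.hom = (s.obj p.W).obj.hom}
  res f α := ⟨(s ⋙ big A).map f.1 ≫ α.1, by
    rw [Category.assoc, ← Category.assoc, ← gfs_nat, Category.assoc, α.2.1, gel_map], by
    rw [Category.assoc, α.2.2]
    exact Big.w _⟩
  res_id _ α := Subtype.ext (by simp)
  res_comp f g α := Subtype.ext (by simp)

/-- The coordinate functions of a chart. -/
def GlChart.φ {Y S : Scheme.{0}} {p : Y ⟶ S} (c : GlChart p) (k : Fin c.n) : Γ(c.U, ⊤) :=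
  c.Φ.appTop (AffineSpace.coord S k)

lemma GG_appTop {P Q R : Scheme.{0}} (f : P ⟶ Q) (g : Q ⟶ R) (r : Γ(R, ⊤)) :
    (f ≫ g).appTop r = f.appTop (g.appTop r) := by
  rw [Scheme.Hom.comp_appTop, CommRingCat.comp_apply]

/-- The extensions of the coordinates of a map. -/
def gTf : SP (El (SP.yon Z Y)) where
  obj p := {y : Fin c.n → Γ((s ⋙ big A).obj p.W, ⊤) // ∃ β : (big A).obj (Z.obj p.W) ⟶ c.U,
    β ≫ c.j = (big A).map p.x ∧ ∀ k, (gfs ι p.W).appTop (y k) = β.appTop (c.φ k)}
  res f y := ⟨fun k => ((s ⋙ big A).map f.1).appTop (y.1 k), by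
    obtain ⟨β, h, h'⟩ := y.2
    refine ⟨(big A).map (Z.map f.1) ≫ β, by rw [Category.assoc, h, gel_map], fun k => ?_⟩
    rw [← GG_appTop, ← gfs_nat, GG_appTop, h', GG_appTop]⟩
  res_id _ y := Subtype.ext (funext fun k => by simp)
  res_comp f g y := Subtype.ext (funext fun k => by
    change ((s ⋙ big A).map (f.1 ≫ g.1)).appTop (y.1 k) =
      ((s ⋙ big A).map f.1).appTop (((s ⋙ big A).map g.1).appTop (y.1 k))
    rw [Functor.map_comp, GG_appTop])

/-- Forgetting the chart. -/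
def gt₁ : (gTc ι c).Hom (gT ι Y) where
  app α := ⟨Big.homMk (α.1 ≫ c.j) (by rw [Category.assoc]; exact α.2.2), Big.hom_ext (by
    rw [Functor.map_comp]
    exact α.2.1)⟩
  nat f α := Subtype.ext (Big.hom_ext (Category.assoc _ _ _))

/-- The coordinates of an extension. -/
def gt₂ : (gTc ι c).Hom (gTf ι c) where
  app α := ⟨fun k => α.1.appTop (c.φ k), gfs ι _ ≫ α.1, by rw [Category.assoc]; exact α.2.1,
    fun k => (GG_appTop _ _ _).symm⟩
  nat f α := Subtype.ext (funext fun k => GG_appTop _ _ _)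

variable (Z) in
/-- The maps with image in a chart. -/
def gSub : (SP.yon Z Y).Sub where
  mem β := Set.range ((big A).map β) ⊆ Set.range c.j
  res f β h := by
    change Set.range ((big A).map (Z.map f ≫ β)) ⊆ _
    rw [Functor.map_comp]
    rintro _ ⟨t, rfl⟩
    rw [Scheme.Hom.comp_apply]
    exact h ⟨_, rfl⟩

/-- Segments of functions. -/
def gSeg {p : El (SP.yon Z Y)} (y y' : (gTf ι c).obj p) (r : Γ((s ⋙ big A).obj p.W, ⊤)) :
    (gTf ι c).obj p :=
  ⟨fun k => y.1 k + r * (y'.1 k - y.1 k), by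
    obtain ⟨β, h, h'⟩ := y.2
    obtain ⟨β', e, e'⟩ := y'.2
    obtain rfl : β' = β := (cancel_mono c.j).1 (e.trans h.symm)
    refine ⟨β', h, fun k => ?_⟩
    rw [map_add, map_mul, map_sub, h', e', sub_self, mul_zero, add_zero]⟩

variable [∀ p, IsClosedImmersion (gfs ι p)] (hv : IsSite (s ⋙ big A)) {m : (SP.yon Z Y).Sub}
  (hm : ∀ (p : El (SP.yon Z Y)) (w : (s ⋙ big A).obj p.W), w ∉ Set.range (gfs ι p.W) →
    Locally (El.proj _ ⋙ s ⋙ big A) p w fun q _ => m.mem q.x)

include hm in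
omit [∀ p, IsClosedImmersion (gfs ι p)] in
lemma g_near (p : El (SP.yon Z Y)) (w : (s ⋙ big A).obj p.W) {P : ∀ q, (q ⟶ p) → Prop}
    (h : ∀ z, Locally (El.proj _ ⋙ s ⋙ big A) p (gfs ι p.W z) P) :
    Locally (El.proj _ ⋙ s ⋙ big A) p w fun q f => m.mem q.x ∨ P q f := by
  by_cases hw : w ∈ Set.range (gfs ι p.W)
  · obtain ⟨z, rfl⟩ := hw
    exact (h z).mono fun _ _ => Or.inr
  · exact (hm p w hw).mono fun _ _ => Or.inl

include hv hm

omit [∀ p, IsClosedImmersion (gfs ι p)] in
lemma wg_gt₁ {a : (SP.yon Z Y).Sub} (ha : a.Le (gSub Z c)) (G : PSh (El (SP.yon Z Y)) L) :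
    WG (NGen (s ⋙ big A)) ((sgl 0).map ((sm a m L).map (rMap G (gt₁ ι c)))) := by
  refine wg_sm_rMap _ G (fun p y y' w _ e => Locally.of_forall _ (Or.inr (congrArg _ ?_)))
    fun p α w hp => g_near ι hm p w fun z => ?_
  · exact Subtype.ext ((cancel_mono c.j).1 (congrArg (fun k : (gT ι Y).obj p => (big A).map k.1) e))
  · have hw : gfs ι p.W z ∈ (big A).map α.1 ⁻¹' Set.range c.j := by
      refine ha p.x hp ⟨z, ?_⟩
      have e : gfs ι p.W ≫ (big A).map α.1 = (big A).map p.x := by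
        rw [← Functor.map_comp, α.2]
      rw [← e, Scheme.Hom.comp_apply]
      rfl
    refine ((hv.el _).locally_open (W := p) (c.j.isOpenEmbedding.isOpen_range.preimage
      ((big A).map α.1).continuous) hw).mono fun q f hf => ?_
    have hr : Set.range ((big A).map ((gT ι Y).res f α).1) ⊆ Set.range c.j := by
      change Set.range ((big A).map (s.map f.1 ≫ α.1)) ⊆ _
      rw [Functor.map_comp]
      rintro _ ⟨t, rfl⟩
      rw [Scheme.Hom.comp_apply]
      exact hf ⟨t, rfl⟩
    have e := IsOpenImmersion.lift_fac c.j _ hr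
    refine ⟨⟨IsOpenImmersion.lift c.j _ hr, ?_, ?_⟩, Subtype.ext (Big.hom_ext e)⟩
    · rw [e, ← Functor.map_comp, ((gT ι Y).res f α).2]
    · rw [← Category.assoc, e]
      exact Big.w _

lemma wg_gt₂ (a : (SP.yon Z Y).Sub) (G : PSh (El (SP.yon Z Y)) L) :
    WG (NGen (s ⋙ big A)) ((sgl 0).map ((sm a m L).map (rMap G (gt₂ ι c)))) := by
  refine wg_sm_rMap _ G (fun p y y' w _ e => g_near ι hm p w fun z => ?_)
    fun p y w _ => g_near ι hm p w fun z => ?_
  · obtain ⟨O, hO⟩ := GG_eq c.Φ (a := y.1) (b := y'.1) (AffineSpace.hom_ext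
      (by rw [Category.assoc, Category.assoc, c.w, y.2.2, y'.2.2])
      fun k => by
        rw [GG_appTop, GG_appTop]
        exact congrFun (congrArg Subtype.val e) k)
    have h1 := (hO _ (gfs ι p.W)).1 ((cancel_mono c.j).1 (by
      rw [Category.assoc, Category.assoc, y.2.1, y'.2.1]))
    exact ((hv.el _).locally_open (W := p) O.isOpen (h1 ⟨z, rfl⟩)).mono fun q f hf =>
      Subtype.ext ((hO _ _).2 hf)
  · obtain ⟨β, hβ, hβ'⟩ := y.2
    obtain ⟨V, f, x, α, _, hx, _, hα, h⟩ := GG_sec (gfs ι p.W) c.Φ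
      (AffineSpace.homOfVector (s.obj p.W).obj.hom y.1) β (AffineSpace.hom_ext
        (by
          rw [Category.assoc, Category.assoc, AffineSpace.homOfVector_over, c.w, ← Category.assoc,
            hβ, gfs_w]
          exact (Big.w _).symm)
        fun k => by
          rw [GG_appTop, GG_appTop, AffineSpace.homOfVector_appTop_coord]
          exact hβ' k) z
    rw [← hx]
    refine ((hv.el _).locally_of_etale (W := p) f x).mono ?_
    rintro q φ ⟨k, hk⟩
    have hk' : k ≫ f = (s ⋙ big A).map φ.1 := hk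
    have h1 := h _ ((big A).map (Z.map φ.1)) (gfs ι q.W ≫ k) (by
      rw [gfs_nat, Category.assoc, hk'])
    refine ⟨⟨k ≫ α, ?_, ?_⟩, Subtype.ext (funext fun i => ?_)⟩
    · rw [← Category.assoc, ← Category.assoc, h1, Category.assoc, hβ, gel_map]
    · rw [← c.w, Category.assoc, reassoc_of% hα, AffineSpace.homOfVector_over, ← Category.assoc,
        hk']
      exact Big.w _
    · change (k ≫ α).appTop (c.Φ.appTop _) = ((s ⋙ big A).map φ.1).appTop (y.1 i)
      rw [← GG_appTop, Category.assoc, hα, ← Category.assoc, hk', GG_appTop]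
      exact congrArg _ (AffineSpace.homOfVector_appTop_coord _ _ _)

omit hm in
lemma wg_gTf {a : (SP.yon Z Y).Sub} (ha : a.Le (gSub Z c)) (G : PSh (El (SP.yon Z Y)) L) :
    WG (NGen (s ⋙ big A)) ((sgl 0).map ((sm a m L).map (rEps (gTf ι c) G))) := by
  refine wg_sm_rEps (gSeg ι c) (fun f y y' r => Subtype.ext (funext fun k => ?_))
    (fun y y' => Subtype.ext (funext fun k => ?_)) (fun y y' => Subtype.ext (funext fun k => ?_))
    (fun p w hp => ?_) G
  · change Scheme.Hom.appTop _ (_ + _ * (_ - _)) = _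
    rw [map_add, map_mul, map_sub]
    rfl
  · change _ + 0 * _ = _
    rw [zero_mul, add_zero]
  · change y.1 k + 1 * (y'.1 k - y.1 k) = _
    rw [one_mul, add_sub_cancel]
  · have e := IsOpenImmersion.lift_fac c.j _ (ha p.x hp)
    obtain ⟨U, g, hw, h⟩ := GG_fun (gfs ι p.W) w fun k =>
      (IsOpenImmersion.lift c.j _ (ha p.x hp)).appTop (c.φ k)
    refine ((hv.el _).locally_of_etale (W := p) U.ι ⟨w, hw⟩).mono ?_
    rintro q φ ⟨k, hk⟩
    have hk' : k ≫ U.ι = (s ⋙ big A).map φ.1 := hk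
    have h1 := h _ ((big A).map (Z.map φ.1)) (gfs ι q.W ≫ k) (by
      rw [gfs_nat, Category.assoc, hk'])
    refine Or.inr ⟨⟨fun i => k.appTop (g i), (big A).map (Z.map φ.1) ≫
      IsOpenImmersion.lift c.j _ (ha p.x hp), by rw [Category.assoc, e, gel_map], fun i => ?_⟩⟩
    exact (GG_appTop _ _ _).symm.trans ((h1 i).trans (GG_appTop _ _ _).symm)

omit c in
/-- The extensions of a map to a smooth scheme form a locally contractible family. -/
theorem wg_gT (hY : Smooth Y.obj.hom) (G : PSh (El (SP.yon Z Y)) L) :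
    WG (NGen (s ⋙ big A)) ((sgl 0).map ((sm .top m L).map (rEps (gT ι Y) G))) := by
  have := Y.property.2.1
  have : CompactSpace Y.obj.left := QuasiCompact.compactSpace_of_compactSpace Y.obj.hom
  obtain ⟨c, t, ht⟩ := GG_charts Y.obj.hom
  refine wg_sm_of_cover t (fun i => gSub Z (c i)) _ (fun p w _ => g_near ι hm p w fun z => ?_)
    fun i _ a _ ha => ?_
  · obtain ⟨i, hi, hz⟩ := ht ((big A).map p.x z)
    obtain ⟨O, hO, e⟩ := (gfs ι p.W).isClosedEmbedding.isInducing.isOpen_iff.1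
      ((c i).j.isOpenEmbedding.isOpen_range.preimage ((big A).map p.x).continuous)
    refine ((hv.el _).locally_open (W := p) hO (e.ge hz)).mono fun q f hf => ⟨i, hi, ?_⟩
    rintro _ ⟨y, rfl⟩
    rw [← gel_map Y f, Scheme.Hom.comp_apply]
    refine e.le ?_
    change gfs ι p.W _ ∈ O
    rw [← Scheme.Hom.comp_apply, gfs_nat, Scheme.Hom.comp_apply]
    exact hf ⟨_, rfl⟩
  · refine (wg_gt₁ ι (c i) hv hm ha G).of_precomp ?_
    rw [← Functor.map_comp, ← Functor.map_comp, rMap_eps, ← rMap_eps (gt₂ ι (c i)),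
      Functor.map_comp, Functor.map_comp]
    exact (wg_gt₂ ι (c i) hv hm a G).comp (wg_gTf ι (c i) hv ha G)

end Pool.Agent.KEW
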