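import Pool.Agent.P.MP_6277db_ag.KEW.L2b.Sites
import Pool.Agent.P.MP_6277db_ag.KEW.L1.Seq

/-!
KEW, layer L2g: resolutions and local equivalences of single presheaves.
-/

set_option backward.isDefEq.respectTransparency false

noncomputable section

open CategoryTheory Limits AlgebraicGeometry Opposite ZeroObject

namespace Pool.Agent.KEW

variable {C : Type 1} [Category.{0} C] {C' : Type 1} [Category.{0} C'] {L : Type 1} [CommRing L]
  {u : C ⥤ Scheme.{0}} {Gn : Ch C L → Prop} {Gn' : Ch C' L → Prop}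

lemma wg_mapC_sgl_iff (F : PSh C' L ⥤ PSh C L) [F.Additive] {G G' : PSh C' L} (f : G ⟶ G') :
    WG Gn ((mapC F).map ((sgl 0).map f)) ↔ WG Gn ((sgl 0).map (F.map f)) :=
  wg_iff_of_sq ((HomologicalComplex.singleMapHomologicalComplex F (.up ℤ) 0).hom.naturality f)
    (WG.of_isIso _) (WG.of_isIso _)

lemma loc_mapC_sgl_iff (F : PSh C' L ⥤ PSh C L) [F.Additive] (G : PSh C' L) :
    Loc Gn ((mapC F).obj ((sgl 0).obj G)) ↔ Loc Gn ((sgl 0).obj (F.obj G)) :=
  loc_iff_of_iso ((HomologicalComplex.singleMapHomologicalComplex F (.up ℤ) 0).app G)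

lemma wg_chT_sgl_iff {F F' : PSh C' L ⥤ PSh C L} [F.Additive] [F'.Additive] (τ : F ⟶ F')
    (G : PSh C' L) : WG Gn ((chT τ).app ((sgl 0).obj G)) ↔ WG Gn ((sgl 0).map (τ.app G)) := by
  refine wg_iff_of_sq
    (a := (HomologicalComplex.singleMapHomologicalComplex F (.up ℤ) 0).hom.app G)
    (b := (HomologicalComplex.singleMapHomologicalComplex F' (.up ℤ) 0).hom.app G) ?_
    (WG.of_isIso _) (WG.of_isIso _)
  refine HomologicalComplex.hom_ext _ _ fun n => ?_
  by_cases h : n = 0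
  · subst h
    simp [HomologicalComplex.single_map_f_self]
  · exact (HomologicalComplex.isZero_single_obj_X _ 0 _ n h).eq_of_tgt _ _

lemma PresW.loc {F : PSh C' L ⥤ PSh C L} [F.Additive] (h : PresW Gn' Gn (mapC F)) {K : Ch C' L}
    (hK : Loc Gn' K) : Loc Gn ((mapC F).obj K) :=
  (h (0 : K ⟶ 0) (WG.of_loc _ hK Loc.zero)).loc_iff.2
    (Loc.of_isZero ((mapC F).map_isZero (isZero_zero _)))

lemma PresW.sgl_map {F : PSh C' L ⥤ PSh C L} [F.Additive] (h : PresW Gn' Gn (mapC F))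
    {G G' : PSh C' L} {f : G ⟶ G'} (hf : WG Gn' ((sgl 0).map f)) : WG Gn ((sgl 0).map (F.map f)) :=
  (wg_mapC_sgl_iff F f).1 (h _ hf)

lemma PresW.sgl_obj {F : PSh C' L ⥤ PSh C L} [F.Additive] (h : PresW Gn' Gn (mapC F))
    {G : PSh C' L} (hG : Loc Gn' ((sgl 0).obj G)) : Loc Gn ((sgl 0).obj (F.obj G)) :=
  (loc_mapC_sgl_iff F G).1 (h.loc hG)

lemma wg_sgl_of_loc (hG : ∀ K, NisGen u K → Loc Gn K) {F F' : PSh C L} {φ : F ⟶ F'}
    (h : LocInj u φ) (h' : LocSurj u φ) : WG Gn ((sgl 0).map φ) :=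
  WG.trans hG ((wg_nis_sgl_iff φ 0).2 ⟨h, h'⟩)

/-- A locally surjective map whose kernel is in `Loc` is an equivalence. -/
lemma wg_of_locSurj (hG : ∀ K, NisGen u K → Loc Gn K) (S : ShortComplex (PSh C L)) (hS : S.Exact)
    [Mono S.f] (h : LocSurj u S.g) (h₁ : Loc Gn ((sgl 0).obj S.X₁)) : WG Gn ((sgl 0).map S.g) := by
  have e : S.g = cokernel.π S.f ≫ cokernel.desc S.f S.g S.zero := (cokernel.π_desc _ _ _).symm
  have hm : Mono (cokernel.desc S.f S.g S.zero) := hS.mono_cokernelDesc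
  rw [e, Functor.map_comp]
  refine WG.comp ?_ (wg_sgl_of_loc hG (LocInj.of_mono _) fun U b x => ?_)
  · have hT : (ShortComplex.mk S.f (cokernel.π S.f) (cokernel.condition _)).ShortExact :=
      { exact := ShortComplex.exact_cokernel S.f }
    exact (wg_g_iff (hT.map_of_exact (sgl 0))).2 h₁
  · refine (h U b x).mono fun V f ⟨a, ha⟩ => ⟨(cokernel.π S.f).app (op V) a, ?_⟩
    rw [← ha]
    exact (congrArg (fun θ : S.X₂ ⟶ S.X₃ => θ.app (op V) a) e).symm

section res

variable (K R : ℕ → PSh C L) (ι : ∀ n, K (n + 1) ⟶ R n) (ε : ∀ n, R n ⟶ K n)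

/-- The terms of the augmented resolution. -/
def resX : ℤ → PSh C L
  | Int.ofNat 0 => K 0
  | Int.ofNat (_ + 1) => 0
  | Int.negSucc n => R n

/-- The differentials of the augmented resolution. -/
def resD : ∀ n : ℤ, resX K R n ⟶ resX K R (n + 1)
  | Int.ofNat _ => 0
  | Int.negSucc 0 => ε 0
  | Int.negSucc (n + 1) => ε (n + 1) ≫ ι n

variable (w : ∀ n, ι n ≫ ε n = 0)

include w in
lemma resD_sq : ∀ n : ℤ, resD K R ι ε n ≫ resD K R ι ε (n + 1) = 0
  | Int.ofNat _ => zero_comp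
  | Int.negSucc 0 => comp_zero
  | Int.negSucc 1 => by
    change (ε 1 ≫ ι 0) ≫ ε 0 = 0
    rw [Category.assoc, w, comp_zero]
  | Int.negSucc (n + 2) => by
    change (ε (n + 2) ≫ ι (n + 1)) ≫ ε (n + 1) ≫ ι n = 0
    rw [Category.assoc, ← Category.assoc (ι _), w, zero_comp, comp_zero]

/-- The augmented resolution. -/
def resC : Ch C L := CochainComplex.of (resX K R) (resD K R ι ε) (resD_sq K R ι ε w)

lemma nisGen_of_d (Y : Ch C L) (h : ∀ (p : ℤ) (U : C) (b : (Y.X (p + 1)).obj (op U)),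
    (Y.d (p + 1) (p + 1 + 1)).app (op U) b = 0 → ∀ x : u.obj U, Locally u U x fun V f =>
      ∃ a, (Y.d p (p + 1)).app (op V) a = (Y.X (p + 1)).map f.op b) : NisGen u Y := by
  intro q
  obtain ⟨p, rfl⟩ : ∃ p, q = p + 1 := ⟨q - 1, by ring⟩
  exact LocZero.of_iso (Y.homologyIsoSc' p (p + 1) (p + 1 + 1) (by simp) (by simp)).symm
    ((Site_homology_iff _).2 (h p))

variable (hex : ∀ n, (ShortComplex.mk _ _ (w n)).Exact) (hι : ∀ n, Mono (ι n))
  (hε : ∀ n, LocSurj u (ε n))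

include hex hι hε in
lemma resC_nisGen : NisGen u (resC K R ι ε w) := by
  refine nisGen_of_d _ fun p => ?_
  have e : ∀ n, (resC K R ι ε w).d n (n + 1) = resD K R ι ε n := fun n =>
    CochainComplex.of_d _ _ n
  rw [e, e]
  have key : ∀ n (U : C) (b : (R n).obj (op U)), (ε n).app (op U) b = 0 → ∀ x : u.obj U,
      Locally u U x fun V f => ∃ a, (ε (n + 1) ≫ ι n).app (op V) a = (R n).map f.op b := by
    intro n U b hb x
    obtain ⟨c, rfl⟩ := Site_exact (hex n) b hb
    refine (hε (n + 1) U c x).mono fun V f ⟨a, ha⟩ => ⟨a, ?_⟩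
    exact (congrArg ((ι n).app (op V)) ha).trans (Site_nat (ι n) f c)
  match p with
  | Int.ofNat n =>
    intro U b _ x
    refine Locally.of_forall x ⟨0, ?_⟩
    have : Subsingleton ((0 : PSh C L).obj (op U)) :=
      ModuleCat.subsingleton_of_isZero (((evaluation _ _).obj (op U)).map_isZero (isZero_zero _))
    exact this.elim _ _
  | Int.negSucc 0 => exact fun U b _ x => hε 0 U b x
  | Int.negSucc 1 => exact fun U b hb x => key 0 U b hb x
  | Int.negSucc (n + 2) =>
    intro U b hb x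
    have := hι n
    exact key (n + 1) U b (Site_inj (ι n) U (hb.trans (map_zero _).symm)) x

include hex hι hε in
/-- The resolution lemma. -/
lemma loc_of_resolution (hG : ∀ K, NisGen u K → Loc Gn K)
    (hR : ∀ n, Loc Gn ((sgl 0).obj (R n))) : Loc Gn ((sgl 0).obj (K 0)) := by
  let f : (sgl 0).obj (K 0) ⟶ resC K R ι ε w :=
    HomologicalComplex.mkHomFromSingle (𝟙 (K 0)) fun k hk => by
      obtain rfl : 0 + 1 = k := hk
      have e : (resC K R ι ε w).d 0 (0 + 1) = 0 := CochainComplex.of_d _ (resD K R ι ε) 0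
      rw [e, comp_zero]
  have hz : ∀ n : ℤ, n ≠ 0 → IsZero (((sgl 0).obj (K 0)).X n) := fun n hn =>
    HomologicalComplex.isZero_single_obj_X _ 0 _ n hn
  have hz' : ∀ n : ℤ, 0 < n → IsZero ((resC K R ι ε w).X n) := fun n hn =>
    match n, hn with
    | Int.ofNat (_ + 1), _ => isZero_zero _
  refine (WG.of_terms f 0 (fun n hn => hz n hn.ne') hz' fun n => ?_).loc_iff.2
    (hG _ (resC_nisGen K R ι ε w hex hι hε))
  match n with
  | Int.ofNat 0 =>
    have : IsIso (f.f (Int.ofNat 0)) := by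
      change IsIso (f.f 0)
      rw [HomologicalComplex.mkHomFromSingle_f]
      exact IsIso.comp_isIso' inferInstance (IsIso.id _)
    exact WG.of_isIso _
  | Int.ofNat (n + 1) =>
    exact WG.of_loc _ (Loc.of_isZero ((sgl 0).map_isZero (hz _ (by simp; omega))))
      (Loc.of_isZero ((sgl 0).map_isZero (isZero_zero _)))
  | Int.negSucc n =>
    exact WG.of_loc _ (Loc.of_isZero ((sgl 0).map_isZero (hz _ (by simp)))) (hR n)

end res

end Pool.Agent.KEW
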