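import Pool.Agent.P.MP_6277db_ag.KEW.L2g.Res

/-!
KEW, layer L2g: sums over families of sets, local bijections and the torsor lemma.
-/

set_option backward.isDefEq.respectTransparency false

noncomputable section

open CategoryTheory Limits AlgebraicGeometry Opposite

namespace Pool.Agent.KEW

section fam

variable {D : Type 1} [Category.{0} D] {L : Type 1} [CommRing L]

variable (L) in
/-- Tensoring with the free presheaf on a presheaf of sets. -/
abbrev RT (T : SP D) : PSh D L ⥤ PSh D L := pb L (El.proj T) ⋙ sm .top .bot L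

/-- The generators of `RT`. -/
def rI (T : SP D) (G : PSh D L) (p : D) (y : T.obj p) :
    G.obj (op p) →ₗ[L] ((RT L T).obj G).obj (op p) :=
  smI .top .bot ((pb L (El.proj T)).obj G) ⟨p, y⟩

variable {T T' : SP D} {G M : PSh D L}

lemma rI_res {p q : D} (f : q ⟶ p) (y : T.obj p) (g : G.obj (op p)) :
    (((RT L T).obj G).map f.op).hom (rI T G p y g) = rI T G q (T.res f y) ((G.map f.op).hom g) :=
  smObj_map_I' (a := .top) (b := .bot) ((pb L (El.proj T)).obj G) f trivial g

lemma RT_map_rI {G' : PSh D L} (φ : G ⟶ G') (p : D) (y : T.obj p) (g : G.obj (op p)) :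
    (((RT L T).map φ).app (op p)).hom (rI T G p y g) = rI T G' p y ((φ.app (op p)).hom g) :=
  sm_map_I (a := .top) (b := .bot) ((pb L (El.proj T)).map φ) ⟨p, y⟩ g

lemma RT_hom_ext {f f' : (RT L T).obj G ⟶ M}
    (h : ∀ p y g, (f.app (op p)).hom (rI T G p y g) = (f'.app (op p)).hom (rI T G p y g)) :
    f = f' := sm_hom_ext fun p g _ _ => h p.W p.x g

lemma RT_lin_ext {p : D} {N : Type 1} [AddCommGroup N] [Module L N]
    {f f' : ((RT L T).obj G).obj (op p) →ₗ[L] N} (h : ∀ y g, f (rI T G p y g) = f' (rI T G p y g)) :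
    f = f' := sm_lin_ext fun y g _ _ => h y g

/-- Linear maps out of the sections of `RT`. -/
def rLift {p : D} {N : Type 1} [AddCommGroup N] [Module L N] (φ : T.obj p → (G.obj (op p) →ₗ[L] N)) :
    ((RT L T).obj G).obj (op p) →ₗ[L] N :=
  smLift (G := (pb L (El.proj T)).obj G) .top .bot fun y _ => φ y

lemma rLift_rI {p : D} {N : Type 1} [AddCommGroup N] [Module L N]
    (φ : T.obj p → (G.obj (op p) →ₗ[L] N)) (y : T.obj p) (g : G.obj (op p)) :
    rLift φ (rI T G p y g) = φ y g :=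
  smLift_I (G := (pb L (El.proj T)).obj G) (a := .top) (b := .bot) (fun y _ => φ y) trivial g
    fun h => h.elim

/-- Maps of presheaves out of `RT`. -/
def rDesc (φ : ∀ p : D, T.obj p → (G.obj (op p) →ₗ[L] M.obj (op p)))
    (nat : ∀ {p q : D} (f : q ⟶ p) (y : T.obj p) (g : G.obj (op p)),
      (M.map f.op).hom (φ p y g) = φ q (T.res f y) ((G.map f.op).hom g)) : (RT L T).obj G ⟶ M :=
  SmCone.desc (G := (pb L (El.proj T)).obj G)
    { φ := fun p _ => φ p.W p.x
      nat := fun {p q} f _ g => (nat f.1 q.x g).trans (by rw [f.2]; rfl)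
      zero := fun _ _ _ h => h.elim }

lemma rDesc_rI (φ : ∀ p : D, T.obj p → (G.obj (op p) →ₗ[L] M.obj (op p)))
    (nat : ∀ {p q : D} (f : q ⟶ p) (y : T.obj p) (g : G.obj (op p)),
      (M.map f.op).hom (φ p y g) = φ q (T.res f y) ((G.map f.op).hom g)) (p : D) (y : T.obj p)
    (g : G.obj (op p)) : ((rDesc φ nat).app (op p)).hom (rI T G p y g) = φ p y g :=
  SmCone.desc_I (G := (pb L (El.proj T)).obj G) _ ⟨p, y⟩ trivial g

variable (T G) in
/-- The augmentation. -/
def rEps : (RT L T).obj G ⟶ G := rDesc (fun _ _ => LinearMap.id) fun _ _ _ => rfl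

lemma rEps_rI (p : D) (y : T.obj p) (g : G.obj (op p)) :
    ((rEps T G).app (op p)).hom (rI T G p y g) = g :=
  rDesc_rI (fun _ _ => LinearMap.id) (fun _ _ _ => rfl) p y g

variable (G) in
/-- Functoriality in the presheaf of sets. -/
def rMap (t : T.Hom T') : (RT L T).obj G ⟶ (RT L T').obj G :=
  rDesc (fun p y => rI T' G p (t.app y)) fun f y g => by rw [rI_res, t.nat]

lemma rMap_rI (t : T.Hom T') (p : D) (y : T.obj p) (g : G.obj (op p)) :
    ((rMap G t).app (op p)).hom (rI T G p y g) = rI T' G p (t.app y) g :=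
  rDesc_rI (fun p y => rI T' G p (t.app y)) (fun f y g => by rw [rI_res, t.nat]) p y g

lemma rMap_eps (t : T.Hom T') : rMap G t ≫ rEps T' G = rEps T G :=
  RT_hom_ext fun p y g => by
    change ((rEps T' G).app (op p)).hom (((rMap G t).app (op p)).hom (rI T G p y g)) = _
    rw [rMap_rI, rEps_rI, rEps_rI]

lemma RT_eq_sum {p : D} (m : ((RT L T).obj G).obj (op p)) :
    ∃ (s : Finset (T.obj p)) (g : T.obj p → G.obj (op p)), m = ∑ y ∈ s, rI T G p y (g y) := by
  obtain ⟨s, hs, -⟩ := sm_eq_sum (G := (pb L (El.proj T)).obj G) m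
  refine ⟨s.map ⟨Subtype.val, Subtype.val_injective⟩,
    fun y => smPi (G := (pb L (El.proj T)).obj G) .top .bot p ⟨y, trivial, fun h => h⟩ m, ?_⟩
  rw [Finset.sum_map]
  exact hs

/-- A section killed by `rMap` dies as soon as the fibres of `t` on its support are collapsed. -/
lemma rMap_kill (t : T.Hom T') {p q : D} (f : q ⟶ p) (s : Finset (T.obj p))
    (g : T.obj p → G.obj (op p))
    (h : ((rMap G t).app (op p)).hom (∑ y ∈ s, rI T G p y (g y)) = 0)
    (hs : ∀ y ∈ s, ∀ y' ∈ s, t.app y = t.app y' → T.res f y = T.res f y') :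
    (((RT L T).obj G).map f.op).hom (∑ y ∈ s, rI T G p y (g y)) = 0 := by
  classical
  let Φ : ((RT L T').obj G).obj (op p) →ₗ[L] ((RT L T).obj G).obj (op q) :=
    rLift fun z => if h : ∃ y ∈ s, t.app y = z then
      rI T G q (T.res f h.choose) ∘ₗ (G.map f.op).hom else 0
  rw [← map_zero Φ, ← h, map_sum, map_sum, map_sum]
  refine Finset.sum_congr rfl fun y hy => ?_
  have hex : ∃ y' ∈ s, t.app y' = t.app y := ⟨y, hy, rfl⟩
  rw [rMap_rI, rLift_rI, dif_pos hex, rI_res, hs _ hex.choose_spec.1 y hy hex.choose_spec.2]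
  rfl

variable {v : D ⥤ Scheme.{0}}

/-- The kernel of the augmentation becomes contractible after tensoring with `T`. -/
lemma loc_RT_ker (seg : ∀ {p : D}, T.obj p → T.obj p → Γ(v.obj p, ⊤) → T.obj p)
    (nat : ∀ {p q : D} (f : q ⟶ p) (y y' : T.obj p) (r : Γ(v.obj p, ⊤)),
      T.res f (seg y y' r) = seg (T.res f y) (T.res f y') ((v.map f).appTop r))
    (h₀ : ∀ {p : D} (y y' : T.obj p), seg y y' 0 = y)
    (h₁ : ∀ {p : D} (y y' : T.obj p), seg y y' 1 = y') (G : PSh D L) :
    Loc (NGen v) ((sgl 0).obj ((RT L T).obj (kernel (rEps T G)))) := by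
  let ψ : ∀ p : D, Γ(v.obj p, ⊤) → (((RT L T).obj ((RT L T).obj G)).obj (op p) →ₗ[L]
      ((RT L T).obj ((RT L T).obj G)).obj (op p)) := fun p r =>
    rLift fun y => rI T _ p y ∘ₗ rLift fun y' => rI T G p (seg y y' r) - rI T G p y
  have hψ : ∀ p r y y' g, ψ p r (rI T _ p y (rI T G p y' g)) =
      rI T _ p y (rI T G p (seg y y' r) g - rI T G p y g) := fun p r y y' g => by
    simp only [ψ, rLift_rI, LinearMap.comp_apply, LinearMap.sub_apply]
  have ext2 : ∀ {p : D} {N : Type 1} [AddCommGroup N] [Module L N]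
      {f f' : ((RT L T).obj ((RT L T).obj G)).obj (op p) →ₗ[L] N},
      (∀ y y' g, f (rI T _ p y (rI T G p y' g)) = f' (rI T _ p y (rI T G p y' g))) → f = f' :=
    fun {p} _ _ _ f f' h => RT_lin_ext fun y => LinearMap.congr_fun
      (RT_lin_ext (f := f ∘ₗ rI T _ p y) (f' := f' ∘ₗ rI T _ p y) (h y))
  let c : RS.zero.Cone v ((RT L T).obj ((RT L T).obj G)) ((RT L T).obj ((RT L T).obj G)) :=
    { ψ := ψ
      nat := fun {q p} f r => LinearMap.congr_fun (ext2
        (f := (((RT L T).obj ((RT L T).obj G)).map f.op).hom ∘ₗ ψ p r)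
        (f' := ψ q ((v.map f).appTop r) ∘ₗ (((RT L T).obj ((RT L T).obj G)).map f.op).hom)
        fun y y' g => by
          simp only [LinearMap.comp_apply, hψ, rI_res, map_sub, nat])
      zero := fun p r m hr => by
        obtain rfl : r = 0 := hr
        refine LinearMap.congr_fun (ext2 (f := ψ p 0) (f' := 0) fun y y' g => ?_) m
        rw [hψ, h₀, sub_self, map_zero]
        rfl }
  let S := (ShortComplex.mk _ _ (kernel.condition (rEps T G))).map (RT L T)
  have hS : S.Exact := (ShortComplex.exact_kernel _).map _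
  have hm : Mono S.f := (RT L T).map_mono _
  have hc : c.desc ≫ S.g = 0 := RS.zero.hom_ext fun p r m => by
    change (S.g.app (op p)).hom ((c.desc.app (op p)).hom _) = 0
    rw [c.desc_tp]
    refine LinearMap.congr_fun (ext2 (f := (S.g.app (op p)).hom ∘ₗ ψ p r) (f' := 0)
      fun y y' g => ?_) m
    change (((RT L T).map (rEps T G)).app (op p)).hom (ψ p r _) = 0
    rw [hψ, RT_map_rI, map_sub, rEps_rI, rEps_rI, sub_self, map_zero]
  obtain ⟨k, hk⟩ := hS.lift' c.desc hc
  refine loc_sgl_of_contraction S.X₁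
    { ψ := fun p r => (k.app (op p)).hom ∘ₗ RS.zero.tp _ p r ∘ₗ (S.f.app (op p)).hom
      nat := fun {q p} f r m => ?_
      zero := fun p r m hr => ?_ } fun p m => ?_
  · exact (Site_nat k f _).symm.trans (congrArg (k.app (op q)).hom
      ((RS.zero.map_tp _ f r _).trans (congrArg _ (Site_nat S.f f m).symm)))
  · exact (congrArg (k.app (op p)).hom (RS.zero.tp_of_mem _ p hr _)).trans (map_zero _)
  · refine Site_inj S.f p ?_
    have e1 : (S.f.app (op p)).hom ((k.app (op p)).hom (RS.zero.tp _ p 1 ((S.f.app (op p)).hom m))) =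
        (c.desc.app (op p)).hom (RS.zero.tp _ p 1 ((S.f.app (op p)).hom m)) :=
      congrArg (fun θ : _ ⟶ S.X₂ => ModuleCat.Hom.hom (NatTrans.app θ (op p))
        (RS.zero.tp _ p 1 ((S.f.app (op p)).hom m))) hk
    refine e1.trans ((c.desc_tp p 1 _).trans ?_)
    refine LinearMap.congr_fun (RT_lin_ext (f := ψ p 1 ∘ₗ (S.f.app (op p)).hom)
      (f' := (S.f.app (op p)).hom) fun y z => ?_) m
    have e2 : (S.f.app (op p)).hom (rI T _ p y z) =
        rI T _ p y (((kernel.ι (rEps T G)).app (op p)).hom z) := RT_map_rI _ p y z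
    have e3 : ∀ n, ψ p 1 (rI T _ p y n) =
        rI T _ p y (n - rI T G p y (((rEps T G).app (op p)).hom n)) := fun n =>
      LinearMap.congr_fun (RT_lin_ext (f := ψ p 1 ∘ₗ rI T _ p y)
        (f' := rI T _ p y ∘ₗ (LinearMap.id - rI T G p y ∘ₗ ((rEps T G).app (op p)).hom))
        fun y' g => by
          simp only [LinearMap.comp_apply, hψ, h₁, LinearMap.sub_apply, LinearMap.id_apply,
            rEps_rI]) n
    have e4 : ((rEps T G).app (op p)).hom (((kernel.ι (rEps T G)).app (op p)).hom z) = 0 :=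
      Site_zero (kernel.condition _) z
    refine (congrArg (ψ p 1) e2).trans (((e3 _).trans ?_).trans e2.symm)
    rw [e4, map_zero, sub_zero]

end fam

variable {C : Type 1} [Category.{0} C] {L : Type 1} [CommRing L] {u : C ⥤ Scheme.{0}} {X : SP C}
  {a b : X.Sub}

/-- The identity map of a presheaf of sets. -/
def SP.Hom.id (X : SP C) : X.Hom X := ⟨fun x => x, fun _ _ => rfl⟩

lemma sm_map_locInj {G G' : PSh (El X) L} (φ : G ⟶ G')
    (h : ∀ (W : C) (x : X.obj W) (g : G.obj (op ⟨W, x⟩)) (w : u.obj W), a.mem x → ¬ b.mem x →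
      (φ.app (op ⟨W, x⟩)).hom g = 0 → Locally u W w fun _ f =>
        b.mem (X.res f x) ∨ (G.map (El.along f x).op).hom g = 0) :
    LocInj u ((sm a b L).map φ) := by
  refine sm_locInj ((sm a b L).map φ) (SP.Hom.id X) φ (fun p g _ => sm_map_I φ p g)
    (fun W x g w ha h0 => ?_) fun W x x' w _ _ e => Locally.of_forall w (Or.inl (congrArg _ e))
  by_cases hb : b.mem x
  · exact Locally.of_forall w (smI_of_b (p := ⟨W, X.res (𝟙 W) x⟩) (b.res _ hb) _)
  · rcases (smI_eq_zero_iff _ _).1 h0 with h1 | h1 | h1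
    · exact (h1 ha).elim
    · exact (hb h1).elim
    · refine (h W x g w ha hb h1).mono ?_
      rintro V f (h2 | h2)
      · exact smI_of_b (p := ⟨V, X.res f x⟩) h2 _
      · rw [h2, map_zero]

lemma sm_map_locSurj {G G' : PSh (El X) L} (φ : G ⟶ G')
    (h : ∀ (W : C) (x : X.obj W) (g' : G'.obj (op ⟨W, x⟩)) (w : u.obj W), a.mem x → ¬ b.mem x →
      Locally u W w fun V f => b.mem (X.res f x) ∨
        ∃ g, (φ.app (op ⟨V, X.res f x⟩)).hom g = (G'.map (El.along f x).op).hom g') :
    LocSurj u ((sm a b L).map φ) := by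
  refine sm_locSurj _ fun W x g' w ha hb => (h W x g' w ha hb).mono ?_
  rintro V f (h2 | ⟨g, hg⟩)
  · exact ⟨0, (map_zero _).trans (smI_of_b (p := ⟨V, X.res f x⟩) h2 _).symm⟩
  · exact ⟨smI a b G ⟨V, X.res f x⟩ g, (sm_map_I φ ⟨V, X.res f x⟩ g).trans (congrArg _ hg)⟩

/-- The sum inverts maps which are bijective on `a - b`. -/
lemma wg_sm_map_of_bij {G G' : PSh (El X) L} (φ : G ⟶ G')
    (h : ∀ p : El X, a.mem p.x → ¬ b.mem p.x → Function.Bijective (φ.app (op p)).hom) :
    WG (NGen u) ((sgl 0).map ((sm a b L).map φ)) := by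
  refine wg_sgl_of_loc (fun _ => NisGen.loc) (sm_map_locInj φ fun W x g w ha hb h0 => ?_)
    (sm_map_locSurj φ fun W x g' w ha hb => ?_)
  · obtain rfl : g = 0 := (h ⟨W, x⟩ ha hb).1 (h0.trans (map_zero _).symm)
    exact Locally.of_forall w (Or.inr (map_zero _))
  · obtain ⟨g, rfl⟩ := (h ⟨W, x⟩ ha hb).2 g'
    exact Locally.of_forall w (Or.inr ⟨_, Site_nat φ (El.along (𝟙 W) x) g⟩)

/-- Finitely many local conditions on an element hold simultaneously. -/
lemma locally_finset {ι : Type} (s : Finset ι) (p : El X) (P : ι → ∀ ⦃q : El X⦄, (q ⟶ p) → Prop)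
    (w : u.obj p.W)
    (hP : ∀ i ∈ s, ∀ ⦃q r : El X⦄ (f : q ⟶ p) (g : r ⟶ q), P i f → P i (g ≫ f))
    (h : ∀ i ∈ s, ∀ ⦃q : El X⦄ (f : q ⟶ p) (y : u.obj q.W),
      Locally (El.proj X ⋙ u) q y fun _ g => P i (g ≫ f)) :
    Locally (El.proj X ⋙ u) p w fun _ f => ∀ i ∈ s, P i f := by
  classical
  induction s using Finset.induction_on with
  | empty => exact Locally.of_forall _ (by simp)
  | insert i s hi ih =>
    refine (ih (fun j hj => hP j (Finset.mem_insert_of_mem hj))
      fun j hj => h j (Finset.mem_insert_of_mem hj)).bind fun q f hf y => ?_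
    refine (h i (Finset.mem_insert_self _ _) f y).mono fun r g hg j hj => ?_
    rcases Finset.mem_insert.1 hj with rfl | hj
    · exact hg
    · exact hP j (Finset.mem_insert_of_mem hj) f g (hf j hj)

variable {T T' : SP (El X)}

/-- A map of families of sets which is locally bijective modulo `b` induces an equivalence. -/
lemma wg_sm_rMap (t : T.Hom T') (G : PSh (El X) L)
    (hi : ∀ (p : El X) (y y' : T.obj p) (w : u.obj p.W), a.mem p.x → t.app y = t.app y' →
      Locally (El.proj X ⋙ u) p w fun q f => b.mem q.x ∨ T.res f y = T.res f y')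
    (hs : ∀ (p : El X) (z : T'.obj p) (w : u.obj p.W), a.mem p.x →
      Locally (El.proj X ⋙ u) p w fun q f => b.mem q.x ∨ ∃ y, t.app y = T'.res f z) :
    WG (NGen u) ((sgl 0).map ((sm a b L).map (rMap G t))) := by
  classical
  refine wg_sgl_of_loc (fun _ => NisGen.loc) (sm_map_locInj _ fun W x m w ha _ h0 => ?_)
    (sm_map_locSurj _ fun W x m w ha _ => ?_)
  · obtain ⟨s, g, rfl⟩ := RT_eq_sum m
    have key := locally_finset (u := u) ((s ×ˢ s).filter fun k => t.app k.1 = t.app k.2)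
      ⟨W, x⟩ (fun k q f => b.mem q.x ∨ T.res f k.1 = T.res f k.2)
      w (fun k _ q r f g h => h.imp (El.mem_of_hom g) fun h => by
        rw [T.res_comp, T.res_comp, h]) fun k hk q f y =>
        (hi q (T.res f k.1) (T.res f k.2) y (El.mem_of_hom f ha)
          (by rw [t.nat, t.nat, (Finset.mem_filter.1 hk).2])).mono fun r g h => h.imp id fun h => by
            rw [T.res_comp, T.res_comp, h]
    refine (Locally.of_el key).mono fun V f hf => ?_
    by_cases hb : b.mem (X.res f x)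
    · exact Or.inl hb
    · exact Or.inr (rMap_kill t _ s g h0 fun y hy y' hy' e =>
        (hf (y, y') (Finset.mem_filter.2 ⟨Finset.mem_product.2 ⟨hy, hy'⟩, e⟩)).resolve_left hb)
  · obtain ⟨s, g, rfl⟩ := RT_eq_sum m
    have key := locally_finset (u := u) s
      ⟨W, x⟩ (fun k q f => b.mem q.x ∨ ∃ y, t.app y = T'.res f k)
      w (fun k _ q r f g h => h.imp (El.mem_of_hom g) fun ⟨y, h⟩ =>
        ⟨T.res g y, by rw [t.nat, h, T'.res_comp]⟩) fun k hk q f y =>
        (hs q (T'.res f k) y (El.mem_of_hom f ha)).mono fun r g h => h.imp id fun ⟨y, h⟩ =>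
          ⟨y, by rw [h, T'.res_comp]⟩
    refine (Locally.of_el key).mono fun V f hf => ?_
    by_cases hb : b.mem (X.res f x)
    · exact Or.inl hb
    · choose y hy using fun k : s => (hf k.1 k.2).resolve_left hb
      refine Or.inr ⟨∑ k : s, rI T G _ (y k) ((G.map (El.along f x).op).hom (g k)), ?_⟩
      rw [map_sum, map_sum, ← Finset.sum_coe_sort s]
      exact Finset.sum_congr rfl fun k _ => by rw [rMap_rI, rI_res, hy]

/-- The torsor lemma. -/
theorem wg_sm_rEps (seg : ∀ {p : El X}, T.obj p → T.obj p → Γ(u.obj p.W, ⊤) → T.obj p)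
    (nat : ∀ {p q : El X} (f : q ⟶ p) (y y' : T.obj p) (r : Γ(u.obj p.W, ⊤)),
      T.res f (seg y y' r) = seg (T.res f y) (T.res f y') ((u.map f.1).appTop r))
    (h₀ : ∀ {p : El X} (y y' : T.obj p), seg y y' 0 = y)
    (h₁ : ∀ {p : El X} (y y' : T.obj p), seg y y' 1 = y')
    (hne : ∀ (p : El X) (w : u.obj p.W), a.mem p.x →
      Locally (El.proj X ⋙ u) p w fun q _ => b.mem q.x ∨ Nonempty (T.obj q))
    (G : PSh (El X) L) : WG (NGen u) ((sgl 0).map ((sm a b L).map (rEps T G))) := by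
  have hsurj : ∀ G : PSh (El X) L, LocSurj u ((sm a b L).map (rEps T G)) := fun G =>
    sm_map_locSurj _ fun W x g w ha _ => (Locally.of_el (hne ⟨W, x⟩ w ha)).mono fun V f h =>
      h.imp id fun ⟨y⟩ => ⟨rI T G _ y _, rEps_rI _ y _⟩
  let S : PSh (El X) L → ShortComplex (PSh C L) := fun G =>
    (ShortComplex.mk _ _ (kernel.condition (rEps T G))).map (sm a b L)
  have hS : ∀ G, (S G).Exact := fun G => (ShortComplex.exact_kernel _).map _
  have hm : ∀ G, Mono (S G).f := fun G => (sm a b L).map_mono _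
  let H : ℕ → PSh (El X) L := fun n => Nat.rec G (fun _ G' => kernel (rEps T G')) n
  have := hm G
  refine wg_of_locSurj (fun _ => NisGen.loc) (S G) (hS G) (hsurj G) ?_
  exact loc_of_resolution (fun n => (sm a b L).obj (H (n + 1))) (fun n => (S (H (n + 1))).X₂)
    (fun n => (S (H (n + 1))).f) (fun n => (S (H (n + 1))).g) (fun n => (S _).zero) (fun n => hS _)
    (fun n => hm _) (fun n => hsurj _) (fun _ => NisGen.loc) fun n =>
      (presW_sm_id a b).sgl_obj (loc_RT_ker (v := El.proj X ⋙ u) seg nat h₀ h₁ (H n))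

/-- The finite cover lemma for maps. -/
lemma wg_sm_of_cover {ι : Type} (s : Finset ι) (c : ι → X.Sub) {G G' : PSh (El X) L} (φ : G ⟶ G')
    (hc : ∀ (p : El X) (w : u.obj p.W), a.mem p.x →
      Locally (El.proj X ⋙ u) p w fun q _ => b.mem q.x ∨ ∃ i ∈ s, (c i).mem q.x)
    (h : ∀ i ∈ s, ∀ a' : X.Sub, a'.Le a → a'.Le (c i) →
      WG (NGen u) ((sgl 0).map ((sm a' b L).map φ))) :
    WG (NGen u) ((sgl 0).map ((sm a b L).map φ)) := by
  have e : ∀ a' : X.Sub, Loc (NGen u) ((mapC (sm a' b L)).obj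
      (CochainComplex.mappingCone ((sgl 0).map φ))) ↔
        WG (NGen u) ((sgl 0).map ((sm a' b L).map φ)) := fun a' =>
    (loc_iff_of_iso (CochainComplex.mappingCone.mapHomologicalComplexIso _ (sm a' b L))).trans
      (wg_mapC_sgl_iff _ φ)
  refine (e a).1 (loc_sm_of_cover (fun _ => NisGen.loc) s a b c _
    (fun W x w ha => Locally.of_el (hc ⟨W, x⟩ w ha)) fun t ht ⟨i, hi⟩ => (e _).2 ?_)
  exact h i (ht hi) _ (fun _ _ hx => hx.1) fun _ _ hx => hx.2 i hi

end Pool.Agent.KEW
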